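import Pool.Agent.Helper98.Saw.Strip

/-!
# The imaginary part of the parafermionic identity in a lattice polygon
-/

namespace Pool.Agent.Helper78.Saw

open Finset Pool.Agent.Helper98.Saw

/-- The winding of the walk `l` entering through `(v, i)` and leaving through `j`. -/
noncomputable def tw (v : V) (i : Fin 3) (l : List V) (j : Fin 3) : ℝ :=
  tau ((nb v i :: l ++ [nb (l.getLastD v) j]).map pos)

lemma eq_of_exp {τ φ : ℝ} (h1 : |τ| ≤ Real.pi) (h2 : |φ| < Real.pi)
    (h3 : Complex.exp (τ * Complex.I) = Complex.exp (φ * Complex.I)) : τ = φ := by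
  rw [Complex.exp_eq_exp_iff_exists_int] at h3
  obtain ⟨n, hn⟩ := h3
  have h4 : τ = φ + n * (2 * Real.pi) := by
    have : ((τ : ℂ)) * Complex.I = ((φ + n * (2 * Real.pi) : ℝ) : ℂ) * Complex.I := by
      rw [hn]; push_cast; ring
    have h5 := mul_right_cancel₀ Complex.I_ne_zero this
    exact_mod_cast h5
  have hpi := Real.pi_pos
  rw [abs_le] at h1
  rw [abs_lt] at h2
  have h5 : (n : ℝ) < 1 := by nlinarith
  have h6 : (-1 : ℝ) < n := by nlinarith
  have h5' : n < 1 := by exact_mod_cast h5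
  have h6' : -1 < n := by exact_mod_cast h6
  have : n = 0 := by omega
  rw [this] at h4
  simpa using h4

open Classical in
/-- Exit data: the winding and the set of exits of a walk. -/
lemma walk_exit {κ κ' v : V} {i : Fin 3} (hv : exitP κ κ' v i) (hvb : v ∈ box κ κ')
    {l : List V} (hl : l ∈ Wk (box κ κ') (nb v i) v) :
    (N (nb v i) l).filter (fun w => w ∉ box κ κ') =
        (Finset.univ.filter (fun j => exitP κ κ' (l.getLastD v) j ∧
          ¬ (l.getLastD v = v ∧ j = i))).image (nb (l.getLastD v)) ∧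
      ∀ j, exitP κ κ' (l.getLastD v) j → ¬ (l.getLastD v = v ∧ j = i) →
        |tw v i l j| ≤ Real.pi ∧
          Complex.exp (tw v i l j * Complex.I) =
            Complex.exp (phi v (l.getLastD v) i j * Complex.I) := by
  have hadj : Adj (nb v i) v := (adj_nb (mem_box.1 hvb).2 i).symm
  have huD : nb v i ∉ box κ κ' := (nb_notMem_iff hvb i).2 hv
  have hl' := mem_Wk.1 hl
  obtain ⟨X, y, z, e1, e2, e3, e4⟩ := hl'.split
  have ez : l.getLastD v = z := by
    rw [List.getLastD_eq_getLast?, List.getLast?_eq_some_getLast hl'.ne_nil] at e2 ⊢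
    exact e2
  have htw : ∀ j, tw v i l j = tau ((nb v i :: l ++ [nb z j]).map pos) := by
    intro j; unfold tw; rw [ez]
  rw [ez]
  have hzl : z ∈ l := by
    rw [← ez, List.getLastD_eq_getLast?, List.getLast?_eq_some_getLast hl'.ne_nil]
    exact List.getLast_mem _
  have hzb : z ∈ box κ κ' := hl'.mem z hzl
  have hzhex := (mem_box.1 hzb).2
  have hyiff : ∀ j, exitP κ κ' z j → (nb z j ≠ y ↔ ¬ (z = v ∧ j = i)) := by
    intro j hj
    have hwD : nb z j ∉ box κ κ' := (nb_notMem_iff hzb j).2 hj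
    cases X with
    | nil =>
      simp only [List.nil_append, List.cons.injEq] at e1
      obtain ⟨rfl, rfl⟩ := e1
      have hzv : z = v := by have := hl'.head; simpa using this
      subst hzv
      constructor
      · rintro h ⟨_, rfl⟩; exact h rfl
      · intro h h'
        exact h ⟨rfl, (nb_injective z h')⟩
    | cons a X =>
      simp only [List.cons_append, List.cons.injEq] at e1
      obtain ⟨rfl, e1⟩ := e1
      have hyl : y ∈ l := by rw [e1]; simp
      constructor
      · rintro _ ⟨rfl, _⟩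
        have hnd := hl'.nodup
        have hhd := hl'.head
        rw [e1] at hnd hhd
        cases X with
        | nil =>
          simp at hhd
          subst hhd
          simp at hnd
        | cons b X =>
          simp at hhd
          subst hhd
          simp at hnd
      · intro _ h
        rw [h] at hwD
        exact hwD (hl'.mem y hyl)
  refine ⟨?_, ?_⟩
  · ext w
    rw [Finset.mem_filter, mem_N hl' e1, Finset.mem_image, adj_iff]
    constructor
    · rintro ⟨⟨⟨_, j, rfl⟩, h5⟩, h6⟩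
      have h7 := (nb_notMem_iff hzb j).1 h6
      exact ⟨j, Finset.mem_filter.2 ⟨Finset.mem_univ _, h7, (hyiff j h7).1 h5⟩, rfl⟩
    · rintro ⟨j, hj, rfl⟩
      rw [Finset.mem_filter] at hj
      exact ⟨⟨⟨hzhex, j, rfl⟩, (hyiff j hj.2.1).2 hj.2.2⟩, (nb_notMem_iff hzb j).2 hj.2.1⟩
  · intro j hj1 hj2
    rw [htw]
    have hne := (hyiff j hj1).2 hj2
    refine ⟨exit_tau hv hvb hl' e1 hj1 hne, ?_⟩
    rw [← dir_ratio (mem_box.1 hvb).2 hzhex]
    have t3 : ∃ l', nb v i :: l ++ [nb z j] = nb v i :: v :: l' := by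
      cases l with
      | nil => exact absurd rfl hl'.ne_nil
      | cons a l =>
        have h5 := hl'.head
        simp at h5
        subst h5
        exact ⟨l ++ [nb z j], by simp⟩
    obtain ⟨l', hl2⟩ := t3
    have hch : (nb v i :: l ++ [nb z j]).IsChain Adj := by
      rw [List.isChain_append]
      refine ⟨hl'.chain, by simp, ?_⟩
      intro s hs t ht
      rw [e1] at hs
      rw [show X ++ [y, z] = (X ++ [y]) ++ [z] by simp, List.getLast?_concat] at hs
      simp at hs ht
      subst hs; subst ht; exact adj_nb hzhex j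
    rw [hl2] at hch
    have t4 := exp_tau l' (nb v i) v hch
    rw [hl2, t4, ← hl2]
    congr 1
    have : nb v i :: l ++ [nb z j] = (X ++ [y]) ++ [z, nb z j] := by rw [e1]; simp
    rw [this]
    have h6 : ((X ++ [y]) ++ [z, nb z j]).map pos = (X ++ [y]).map pos ++ [pos z, pos (nb z j)] := by
      simp
    rw [h6, lastDir_append]

open Classical in
/-- **The imaginary part of the identity.** -/
theorem im_identity {κ κ' v : V} {i : Fin 3} (hv : exitP κ κ' v i) (hvb : v ∈ box κ κ') :
    ∑ l ∈ Wk0 (box κ κ') v, ∑ j : Fin 3,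
      (if exitP κ κ' (l.getLastD v) j ∧ ¬ (l.getLastD v = v ∧ j = i) then
        Real.sin (3 / 8 * tw v i l j) * xc ^ l.length else 0) = 0 := by
  have hadj : Adj (nb v i) v := (adj_nb (mem_box.1 hvb).2 i).symm
  have huD : nb v i ∉ box κ κ' := (nb_notMem_iff hvb i).2 hv
  have h1 := dcs huD hadj hvb (fun x hx => half_plane hv hx)
  have h2 : ∑ l ∈ Wk (box κ κ') (nb v i) v, ∑ w ∈ (N (nb v i) l).filter (fun w => w ∉ box κ κ'),
      Real.sin (3 / 8 * tau ((nb v i :: l ++ [w]).map pos)) * xc ^ l.length = 0 := by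
    have h3 := congrArg Complex.im h1
    rw [Complex.im_sum] at h3
    rw [Complex.one_im] at h3
    rw [← h3]
    apply Finset.sum_congr rfl
    intro l _
    rw [Complex.im_sum]
    apply Finset.sum_congr rfl
    intro w _
    have h4 : (ph (nb v i :: l ++ [w])) =
        Complex.exp (((3 / 8 * tau ((nb v i :: l ++ [w]).map pos) : ℝ)) * Complex.I) := by
      unfold ph; congr 1; push_cast; ring
    have h5 : ((xc : ℂ) ^ l.length) = ((xc ^ l.length : ℝ) : ℂ) := by push_cast; rfl
    rw [h4, h5, Complex.im_mul_ofReal, Complex.exp_ofReal_mul_I_im]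
  rw [Wk_eq hadj] at h2
  refine Eq.trans ?_ h2
  apply Finset.sum_congr rfl
  intro l hl
  rw [← Wk_eq hadj] at hl
  obtain ⟨hs, _⟩ := walk_exit hv hvb hl
  rw [hs, Finset.sum_image (fun a _ b _ hab => nb_injective _ hab), Finset.sum_filter]
  rfl

lemma sin_pi_div_eight : Real.sin (Real.pi / 8) = c3 := by
  unfold c3
  rw [show 3 * Real.pi / 8 = Real.pi / 2 - Real.pi / 8 by ring, Real.cos_pi_div_two_sub]

lemma sin_three : Real.sin (3 / 8 * Real.pi) = c1 := by
  unfold c1
  rw [show 3 / 8 * Real.pi = Real.pi / 2 - Real.pi / 8 by ring, Real.sin_pi_div_two_sub]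

lemma sin_quarter : Real.sin (Real.pi / 4) = c2 := by
  unfold c2
  rw [Real.sin_pi_div_four, Real.cos_pi_div_four]

/-- The walk ends at the starting side, away from the start. -/
def Qa (l : List V) : Prop :=
  l.getLastD (e 2) ≠ e 2 ∧ sg (l.getLastD (e 2)) = 1 ∧ (l.getLastD (e 2)) 2 = 1

open Classical in
/-- Weight of the walks returning to the starting side on the left. -/
noncomputable def AL (D : Finset V) : ℝ :=
  ∑ l ∈ (Wk0 D (e 2)).filter (fun l => Qa l ∧ 0 < tw (e 2) 2 l 2), xc ^ l.length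

open Classical in
/-- Weight of the walks returning to the starting side on the right. -/
noncomputable def AR (D : Finset V) : ℝ :=
  ∑ l ∈ (Wk0 D (e 2)).filter (fun l => Qa l ∧ ¬ 0 < tw (e 2) 2 l 2), xc ^ l.length

/-- Weight of the walks with a given last vertex. -/
noncomputable def GG (D : Finset V) (s : ℤ) (j : Fin 3) (k : ℤ) : ℝ :=
  G D (e 2) (fun z => sg z = s ∧ z j = k)

lemma GG_eq (D : Finset V) (s : ℤ) (j : Fin 3) (k : ℤ) : GG D s j k =
    ∑ l ∈ Wk0 D (e 2), (if sg (l.getLastD (e 2)) = s ∧ (l.getLastD (e 2)) j = k then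
      xc ^ l.length else 0) := by
  classical
  unfold GG G
  rw [Finset.sum_filter]
  apply Finset.sum_congr rfl
  intro l _
  by_cases h : sg (l.getLastD (e 2)) = s ∧ (l.getLastD (e 2)) j = k
  · rw [if_pos h]; exact (if_pos h).symm
  · rw [if_neg h]; exact (if_neg h).symm

lemma GG_nonneg (D : Finset V) (s : ℤ) (j : Fin 3) (k : ℤ) : 0 ≤ GG D s j k := G_nonneg _ _ _

lemma GG_mono {D D' : Finset V} (h : D ⊆ D') (s : ℤ) (j : Fin 3) (k : ℤ) :
    GG D s j k ≤ GG D' s j k := G_mono h (fun _ _ h => h)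

lemma Wk0_mono {D D' : Finset V} (h : D ⊆ D') (v : V) : Wk0 D v ⊆ Wk0 D' v := by
  intro l hl
  rw [mem_Wk0] at hl ⊢
  exact ⟨hl.head, hl.chain, hl.nodup, fun x hx => h (hl.mem x hx)⟩

lemma AL_mono {D D' : Finset V} (h : D ⊆ D') : AL D ≤ AL D' := by
  classical
  unfold AL
  apply Finset.sum_le_sum_of_subset_of_nonneg
  · exact Finset.filter_subset_filter _ (Wk0_mono h _)
  · intro l _ _
    exact pow_nonneg xc_pos.le _

lemma AR_mono {D D' : Finset V} (h : D ⊆ D') : AR D ≤ AR D' := by
  classical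
  unfold AR
  apply Finset.sum_le_sum_of_subset_of_nonneg
  · exact Finset.filter_subset_filter _ (Wk0_mono h _)
  · intro l _ _
    exact pow_nonneg xc_pos.le _

lemma AL_add_AR (D : Finset V) : AL D + AR D =
    G D (e 2) (fun z => z ≠ e 2 ∧ sg z = 1 ∧ z 2 = 1) := by
  classical
  unfold AL AR G
  rw [Finset.sum_filter, Finset.sum_filter, Finset.sum_filter, ← Finset.sum_add_distrib]
  apply Finset.sum_congr rfl
  intro l _
  by_cases h1 : Qa l
  · have h2 : l.getLastD (e 2) ≠ e 2 ∧ sg (l.getLastD (e 2)) = 1 ∧ (l.getLastD (e 2)) 2 = 1 := h1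
    by_cases h3 : 0 < tw (e 2) 2 l 2
    · rw [if_pos ⟨h1, h3⟩, if_neg (fun h => h.2 h3), if_pos h2, add_zero]
    · rw [if_neg (fun h => h3 h.2), if_pos ⟨h1, h3⟩, if_pos h2, zero_add]
  · have h2 : ¬ (l.getLastD (e 2) ≠ e 2 ∧ sg (l.getLastD (e 2)) = 1 ∧
      (l.getLastD (e 2)) 2 = 1) := h1
    rw [if_neg h2]
    simp only [h1, false_and, if_false, add_zero]

/-- The real part. -/
theorem re_id {κ κ' : V} (h1 : κ 2 = 1) (hvb : e 2 ∈ box κ κ') :
    c3 * (AL (box κ κ') + AR (box κ κ')) +
      c1 * (GG (box κ κ') 1 0 (κ 0) + GG (box κ κ') 1 1 (κ 1)) +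
      c2 * (GG (box κ κ') 0 0 (κ' 0) + GG (box κ κ') 0 1 (κ' 1)) +
      GG (box κ κ') 0 2 (κ' 2) = 1 := by
  have hv : exitP κ κ' (e 2) 2 := by
    left; exact ⟨sg_e 2, by rw [h1]; simp [e]⟩
  have h0 := box_identity hv hvb
  rw [Fin.sum_univ_three, Fin.sum_univ_three] at h0
  simp only [if_true, if_false, show ((0 : Fin 3) = 2) = False by simp,
    show ((1 : Fin 3) = 2) = False by simp, sg_e] at h0
  have z1 : G (box κ κ') (e 2) (fun z => exitP κ κ' z 2 ∧ ¬ (z = e 2 ∧ True) ∧ sg z = 1) =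
      AL (box κ κ') + AR (box κ κ') := by
    rw [AL_add_AR]
    apply G_congr
    intro z _
    unfold exitP
    rw [h1]
    constructor
    · rintro ⟨h1 | h1, h2, h3⟩
      · exact ⟨fun h => h2 ⟨h, trivial⟩, h3, h1.2⟩
      · omega
    · rintro ⟨h1, h2, h3⟩
      exact ⟨Or.inl ⟨h2, h3⟩, fun h => h1 h.1, h2⟩
  have z2 : ∀ j : Fin 3, G (box κ κ') (e 2) (fun z => exitP κ κ' z j ∧ ¬ (z = e 2 ∧ False) ∧
      sg z = 1) = GG (box κ κ') 1 j (κ j) := by
    intro j
    unfold GG
    apply G_congr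
    intro z _
    unfold exitP
    constructor
    · rintro ⟨h1 | h1, h2, h3⟩
      · exact h1
      · omega
    · rintro ⟨h1, h2⟩
      exact ⟨Or.inl ⟨h1, h2⟩, fun h => h.2, h1⟩
  have z3 : ∀ j : Fin 3, G (box κ κ') (e 2) (fun z => exitP κ κ' z j ∧ sg z ≠ 1) =
      GG (box κ κ') 0 j (κ' j) := by
    intro j
    unfold GG
    apply G_congr
    intro z _
    unfold exitP
    constructor
    · rintro ⟨h1 | h1, h2⟩
      · exact absurd h1.1 h2
      · exact h1
    · rintro ⟨h1, h2⟩
      exact ⟨Or.inr ⟨h1, h2⟩, by omega⟩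
  rw [z1, z2, z2, z3, z3, z3] at h0
  linarith

open Classical in
/-- The imaginary part. -/
theorem im_id {κ κ' : V} (h1 : κ 2 = 1) (hvb : e 2 ∈ box κ κ') :
    c1 * (AL (box κ κ') - AR (box κ κ')) =
      c3 * (GG (box κ κ') 1 0 (κ 0) - GG (box κ κ') 1 1 (κ 1)) +
      c2 * (GG (box κ κ') 0 1 (κ' 1) - GG (box κ κ') 0 0 (κ' 0)) := by
  have hv : exitP κ κ' (e 2) 2 := by
    left; exact ⟨sg_e 2, by rw [h1]; simp [e]⟩
  have h0 := im_identity hv hvb
  have key : ∀ l ∈ Wk0 (box κ κ') (e 2), ∑ j : Fin 3,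
      (if exitP κ κ' (l.getLastD (e 2)) j ∧ ¬ (l.getLastD (e 2) = e 2 ∧ j = 2) then
        Real.sin (3 / 8 * tw (e 2) 2 l j) * xc ^ l.length else 0) =
      c1 * (if Qa l ∧ 0 < tw (e 2) 2 l 2 then xc ^ l.length else 0) -
      c1 * (if Qa l ∧ ¬ 0 < tw (e 2) 2 l 2 then xc ^ l.length else 0) -
      c3 * (if sg (l.getLastD (e 2)) = 1 ∧ (l.getLastD (e 2)) 0 = κ 0 then xc ^ l.length else 0) +
      c3 * (if sg (l.getLastD (e 2)) = 1 ∧ (l.getLastD (e 2)) 1 = κ 1 then xc ^ l.length else 0) +
      c2 * (if sg (l.getLastD (e 2)) = 0 ∧ (l.getLastD (e 2)) 0 = κ' 0 then xc ^ l.length else 0) -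
      c2 * (if sg (l.getLastD (e 2)) = 0 ∧ (l.getLastD (e 2)) 1 = κ' 1 then xc ^ l.length
        else 0) := by
    intro l hl
    have hadj : Adj (nb (e 2) 2) (e 2) := (adj_nb (mem_box.1 hvb).2 2).symm
    have hl2 : l ∈ Wk (box κ κ') (nb (e 2) 2) (e 2) := by rw [Wk_eq hadj]; exact hl
    obtain ⟨_, hw⟩ := walk_exit hv hvb hl2
    set z := l.getLastD (e 2) with hz
    have hpi := Real.pi_pos
    have hcase : sg z = 0 ∨ sg z = 1 := by
      rw [mem_Wk0] at hl
      exact (mem_box.1 hl.last_mem).2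
    have tj : ∀ j : Fin 3, j ≠ 2 → exitP κ κ' z j → tw (e 2) 2 l j = phi (e 2) z 2 j := by
      intro j hj hex
      obtain ⟨a1, a2⟩ := hw j hex (fun h => hj h.2)
      apply eq_of_exp a1 _ a2
      unfold phi
      rw [abs_lt]
      split_ifs <;> constructor <;> linarith
    have t2 : sg z = 0 → exitP κ κ' z 2 → tw (e 2) 2 l 2 = 0 := by
      intro h0 hex
      have hne : z ≠ e 2 := by intro h; rw [h, sg_e] at h0; exact one_ne_zero h0
      obtain ⟨a1, a2⟩ := hw 2 hex (fun h => hne h.1)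
      have h3 : phi (e 2) z 2 2 = 0 := by
        unfold phi; rw [if_neg (by rw [h0, sg_e]; decide), if_pos rfl]
      rw [h3] at a2
      exact eq_of_exp a1 (by rw [abs_zero]; exact hpi) a2
    have t3 : sg z = 1 → exitP κ κ' z 2 → z ≠ e 2 →
        tw (e 2) 2 l 2 = Real.pi ∨ tw (e 2) 2 l 2 = -Real.pi := by
      intro h0 hex hne
      obtain ⟨a1, a2⟩ := hw 2 hex (fun h => hne h.1)
      have h3 : phi (e 2) z 2 2 = Real.pi := by
        unfold phi; rw [if_pos (by rw [h0, sg_e]), if_pos rfl]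
      rw [h3, Complex.exp_eq_exp_iff_exists_int] at a2
      obtain ⟨n, hn⟩ := a2
      have h4 : tw (e 2) 2 l 2 = Real.pi + n * (2 * Real.pi) := by
        have : ((tw (e 2) 2 l 2 : ℝ) : ℂ) * Complex.I =
            ((Real.pi + n * (2 * Real.pi) : ℝ) : ℂ) * Complex.I := by
          rw [hn]; push_cast; ring
        exact_mod_cast mul_right_cancel₀ Complex.I_ne_zero this
      rw [abs_le] at a1
      have h5 : (n : ℝ) < 1 := by nlinarith
      have h6 : (-2 : ℝ) < n := by nlinarith
      have h5' : n < 1 := by exact_mod_cast h5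
      have h6' : -2 < n := by exact_mod_cast h6
      have h7 : n = 0 ∨ n = -1 := by omega
      rcases h7 with h7 | h7
      · left; rw [h4, h7]; simp
      · right; rw [h4, h7]; push_cast; ring
    have s0 : Real.sin (3 / 8 * -(Real.pi / 3)) = -c3 := by
      rw [show 3 / 8 * -(Real.pi / 3) = -(Real.pi / 8) by ring, Real.sin_neg, sin_pi_div_eight]
    have s1 : Real.sin (3 / 8 * (Real.pi / 3)) = c3 := by
      rw [show 3 / 8 * (Real.pi / 3) = (Real.pi / 8) by ring, sin_pi_div_eight]
    have s2 : Real.sin (3 / 8 * (2 * Real.pi / 3)) = c2 := by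
      rw [show 3 / 8 * (2 * Real.pi / 3) = (Real.pi / 4) by ring, sin_quarter]
    have s3 : Real.sin (3 / 8 * -(2 * Real.pi / 3)) = -c2 := by
      rw [show 3 / 8 * -(2 * Real.pi / 3) = -(Real.pi / 4) by ring, Real.sin_neg, sin_quarter]
    have s4 : Real.sin (3 / 8 * Real.pi) = c1 := sin_three
    have s5 : Real.sin (3 / 8 * -Real.pi) = -c1 := by
      rw [mul_neg, Real.sin_neg, sin_three]
    rw [Fin.sum_univ_three]
    rcases hcase with h | h
    · -- sg z = 0
      have hne : z ≠ e 2 := by intro h'; rw [h', sg_e] at h; exact one_ne_zero h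
      have hQ : ¬ Qa l := by
        intro hq
        have := hq.2.1
        rw [← hz, h] at this
        exact zero_ne_one this
      have e0 : (if exitP κ κ' z 0 ∧ ¬ (z = e 2 ∧ (0 : Fin 3) = 2) then
          Real.sin (3 / 8 * tw (e 2) 2 l 0) * xc ^ l.length else 0) =
          c2 * (if sg z = 0 ∧ z 0 = κ' 0 then xc ^ l.length else 0) := by
        by_cases hx : z 0 = κ' 0
        · have hex : exitP κ κ' z 0 := Or.inr ⟨h, hx⟩
          rw [if_pos ⟨hex, fun h => hne h.1⟩, if_pos ⟨h, hx⟩, tj 0 (by decide) hex]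
          have : phi (e 2) z 2 0 = 2 * Real.pi / 3 := by
            unfold phi
            rw [if_neg (by rw [h, sg_e]; decide), if_neg (by decide), if_pos (by decide)]
          rw [this, s2]
        · rw [if_neg, if_neg (fun h => hx h.2), mul_zero]
          rintro ⟨h2 | h2, _⟩
          · omega
          · exact hx h2.2
      have e1 : (if exitP κ κ' z 1 ∧ ¬ (z = e 2 ∧ (1 : Fin 3) = 2) then
          Real.sin (3 / 8 * tw (e 2) 2 l 1) * xc ^ l.length else 0) =
          -(c2 * (if sg z = 0 ∧ z 1 = κ' 1 then xc ^ l.length else 0)) := by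
        by_cases hx : z 1 = κ' 1
        · have hex : exitP κ κ' z 1 := Or.inr ⟨h, hx⟩
          rw [if_pos ⟨hex, fun h => hne h.1⟩, if_pos ⟨h, hx⟩, tj 1 (by decide) hex]
          have : phi (e 2) z 2 1 = -(2 * Real.pi / 3) := by
            unfold phi
            rw [if_neg (by rw [h, sg_e]; decide), if_neg (by decide), if_neg (by decide)]
          rw [this, s3]; ring
        · rw [if_neg, if_neg (fun h => hx h.2), mul_zero, neg_zero]
          rintro ⟨h2 | h2, _⟩
          · omega
          · exact hx h2.2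
      have e2' : (if exitP κ κ' z 2 ∧ ¬ (z = e 2 ∧ (2 : Fin 3) = 2) then
          Real.sin (3 / 8 * tw (e 2) 2 l 2) * xc ^ l.length else 0) = 0 := by
        split_ifs with hx
        · rw [t2 h hx.1]; simp
        · rfl
      have e3 : ¬ (sg z = 1) := by omega
      rw [e0, e1, e2']
      simp only [hQ, e3, false_and, if_false, mul_zero]
      ring
    · -- sg z = 1
      have e3 : ¬ (sg z = 0) := by omega
      have e0 : (if exitP κ κ' z 0 ∧ ¬ (z = e 2 ∧ (0 : Fin 3) = 2) then
          Real.sin (3 / 8 * tw (e 2) 2 l 0) * xc ^ l.length else 0) =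
          -(c3 * (if sg z = 1 ∧ z 0 = κ 0 then xc ^ l.length else 0)) := by
        by_cases hx : z 0 = κ 0
        · have hex : exitP κ κ' z 0 := Or.inl ⟨h, hx⟩
          rw [if_pos ⟨hex, fun h => absurd h.2 (by decide)⟩, if_pos ⟨h, hx⟩,
            tj 0 (by decide) hex]
          have : phi (e 2) z 2 0 = -(Real.pi / 3) := by
            unfold phi
            rw [if_pos (by rw [h, sg_e]), if_neg (by decide), if_pos (by decide)]
          rw [this, s0]; ring
        · rw [if_neg, if_neg (fun h => hx h.2), mul_zero, neg_zero]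
          rintro ⟨h2 | h2, _⟩
          · exact hx h2.2
          · omega
      have e1 : (if exitP κ κ' z 1 ∧ ¬ (z = e 2 ∧ (1 : Fin 3) = 2) then
          Real.sin (3 / 8 * tw (e 2) 2 l 1) * xc ^ l.length else 0) =
          (c3 * (if sg z = 1 ∧ z 1 = κ 1 then xc ^ l.length else 0)) := by
        by_cases hx : z 1 = κ 1
        · have hex : exitP κ κ' z 1 := Or.inl ⟨h, hx⟩
          rw [if_pos ⟨hex, fun h => absurd h.2 (by decide)⟩, if_pos ⟨h, hx⟩,
            tj 1 (by decide) hex]
          have : phi (e 2) z 2 1 = Real.pi / 3 := by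
            unfold phi
            rw [if_pos (by rw [h, sg_e]), if_neg (by decide), if_neg (by decide)]
          rw [this, s1]
        · rw [if_neg, if_neg (fun h => hx h.2), mul_zero]
          rintro ⟨h2 | h2, _⟩
          · exact hx h2.2
          · omega
      have e2' : (if exitP κ κ' z 2 ∧ ¬ (z = e 2 ∧ (2 : Fin 3) = 2) then
          Real.sin (3 / 8 * tw (e 2) 2 l 2) * xc ^ l.length else 0) =
          c1 * (if Qa l ∧ 0 < tw (e 2) 2 l 2 then xc ^ l.length else 0) -
          c1 * (if Qa l ∧ ¬ 0 < tw (e 2) 2 l 2 then xc ^ l.length else 0) := by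
        by_cases hq : Qa l
        · have hex : exitP κ κ' z 2 := Or.inl ⟨h, by rw [h1]; exact hq.2.2⟩
          rw [if_pos ⟨hex, fun h => hq.1 h.1⟩]
          rcases t3 h hex hq.1 with h5 | h5
          · rw [h5, s4, if_pos ⟨hq, hpi⟩, if_neg (fun h => h.2 hpi)]; ring
          · have h6 : ¬ (0 < -Real.pi) := by linarith
            rw [h5, s5, if_neg (fun h => h6 h.2), if_pos ⟨hq, h6⟩]; ring
        · rw [if_neg, if_neg (fun h => hq h.1), if_neg (fun h => hq h.1)]
          · ring
          · rintro ⟨h2 | h2, h3⟩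
            · exact hq ⟨fun h => h3 ⟨h, rfl⟩, h, by rw [← h1]; exact h2.2⟩
            · omega
      rw [e0, e1, e2']
      simp only [e3, false_and, if_false, mul_zero]
      ring
  rw [Finset.sum_congr rfl key] at h0
  simp only [Finset.sum_add_distrib, Finset.sum_sub_distrib, ← Finset.mul_sum] at h0
  rw [GG_eq, GG_eq, GG_eq, GG_eq]
  unfold AL AR
  rw [Finset.sum_filter, Finset.sum_filter]
  linarith

end Pool.Agent.Helper78.Saw
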