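import Pool.Agent.Helper78.Saw.Cplx

/-!
# Five nested polygons: `Y (3 m + 1) ≤ (3 - 3 / √2) Y m`
-/

namespace Pool.Agent.Helper78.Saw

open Finset Pool.Agent.Helper98.Saw

/-- The reflection. -/
def mir : V → V := aff (Equiv.swap 0 1) 1 0

lemma adm_mir : Adm 1 (0 : V) := Or.inl ⟨rfl, by simp [sg]⟩

lemma mir_apply (w : V) : mir w = ![w 1, w 0, w 2] := by
  funext x
  unfold mir aff
  fin_cases x
  · simp
  · simp
  · simp [Equiv.swap_apply_of_ne_of_ne]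

lemma mir_mir (w : V) : mir (mir w) = w := by
  rw [mir_apply, mir_apply]
  funext x
  fin_cases x <;> simp

lemma sg_mir (w : V) : sg (mir w) = sg w := by
  rw [mir_apply]; simp [sg]; ring

lemma mir_e : mir (e 2) = e 2 := by
  rw [mir_apply]
  funext x
  fin_cases x <;> simp [e]

lemma GG_mir {D : Finset V} (hD : ∀ w ∈ D, mir w ∈ D) (s k : ℤ) : GG D s 0 k = GG D s 1 k := by
  have himg : D.image mir = D := by
    ext w
    rw [Finset.mem_image]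
    constructor
    · rintro ⟨z, hz, rfl⟩; exact hD z hz
    · intro hw; exact ⟨mir w, hD w hw, mir_mir w⟩
  have h := G_map (φ := mir) (aff_injective adm_mir) (aff_adj adm_mir) D (e 2)
    (fun z => sg z = s ∧ z 0 = k)
  rw [himg, mir_e] at h
  unfold GG
  rw [h]
  apply G_congr
  intro z _
  rw [sg_mir, mir_apply]
  simp

lemma GG_zero {D : Finset V} {s : ℤ} {j : Fin 3} {k : ℤ} (h : ∀ z ∈ D, ¬ (sg z = s ∧ z j = k)) :
    GG D s j k = 0 := G_false h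

section

variable (m : ℕ)

/-- The five polygons. -/
noncomputable def P0 : Finset V := box ![-(m : ℤ), -(m : ℤ), 1] ![m + m + 2, m + m + 2, m + m + 2]
noncomputable def P1 : Finset V :=
  box ![-(m : ℤ), -(3 * m + 1 : ℤ), 1] ![(m : ℤ), 3 * m + 2, 2 * m + 1]
noncomputable def P2 : Finset V :=
  box ![-(3 * m + 1 : ℤ), -(3 * m + 1 : ℤ), 1] ![(m : ℤ), m, 2 * m + 1]
noncomputable def P3 : Finset V :=
  box ![-(3 * m + 1 : ℤ), -(3 * m + 1 : ℤ), 1] ![(m : ℤ), 3 * m + 2, 2 * m + 1]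

lemma mem_box3 {a b c a' b' c' : ℤ} {w : V} : w ∈ box ![a, b, c] ![a', b', c'] ↔
    (a ≤ w 0 ∧ w 0 ≤ a') ∧ (b ≤ w 1 ∧ w 1 ≤ b') ∧ (c ≤ w 2 ∧ w 2 ≤ c') ∧
      (w 0 + w 1 + w 2 = 0 ∨ w 0 + w 1 + w 2 = 1) := by
  rw [mem_box, Fin.forall_fin_succ, Fin.forall_fin_two]
  unfold Hex sg
  simp
  tauto

lemma P0_P1 : P0 m ⊆ P1 m := by
  intro w hw
  unfold P0 at hw; unfold P1
  rw [mem_box3] at hw ⊢
  omega

lemma P1_P2 : P1 m ⊆ P2 m := by
  intro w hw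
  unfold P1 at hw; unfold P2
  rw [mem_box3] at hw ⊢
  omega

lemma P2_P3 : P2 m ⊆ P3 m := by
  intro w hw
  unfold P2 at hw; unfold P3
  rw [mem_box3] at hw ⊢
  omega

lemma P3_P4 : P3 m ⊆ P0 (3 * m + 1) := by
  intro w hw
  unfold P3 at hw; unfold P0
  rw [mem_box3] at hw ⊢
  push_cast
  omega

lemma e2_mem {κ κ' : V} (h : ∀ i, κ i ≤ e 2 i ∧ e 2 i ≤ κ' i) : e 2 ∈ box κ κ' := by
  rw [mem_box]; exact ⟨h, hex_e 2⟩

lemma re_id3 {a b a' b' c' : ℤ} (hmem : e 2 ∈ box ![a, b, 1] ![a', b', c']) :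
    c3 * (AL (box ![a, b, 1] ![a', b', c']) + AR (box ![a, b, 1] ![a', b', c'])) +
      c1 * (GG (box ![a, b, 1] ![a', b', c']) 1 0 a + GG (box ![a, b, 1] ![a', b', c']) 1 1 b) +
      c2 * (GG (box ![a, b, 1] ![a', b', c']) 0 0 a' +
        GG (box ![a, b, 1] ![a', b', c']) 0 1 b') +
      GG (box ![a, b, 1] ![a', b', c']) 0 2 c' = 1 :=
  re_id (κ := ![a, b, 1]) (κ' := ![a', b', c']) rfl hmem

lemma im_id3 {a b a' b' c' : ℤ} (hmem : e 2 ∈ box ![a, b, 1] ![a', b', c']) :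
    c1 * (AL (box ![a, b, 1] ![a', b', c']) - AR (box ![a, b, 1] ![a', b', c'])) =
      c3 * (GG (box ![a, b, 1] ![a', b', c']) 1 0 a - GG (box ![a, b, 1] ![a', b', c']) 1 1 b) +
      c2 * (GG (box ![a, b, 1] ![a', b', c']) 0 1 b' -
        GG (box ![a, b, 1] ![a', b', c']) 0 0 a') :=
  im_id (κ := ![a, b, 1]) (κ' := ![a', b', c']) rfl hmem

/-- The identities in `P0`. -/
lemma id0 : AL (P0 m) = AR (P0 m) ∧
    2 * c3 * AL (P0 m) + 2 * c1 * GG (P0 m) 1 0 (-(m : ℤ)) = 1 := by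
  have hmem : e 2 ∈ P0 m := by
    unfold P0; rw [mem_box3]; simp [e]; omega
  have h1 := re_id3 hmem
  have h2 := im_id3 hmem
  have hsym : GG (P0 m) 1 0 (-(m : ℤ)) = GG (P0 m) 1 1 (-(m : ℤ)) := by
    apply GG_mir
    intro w hw
    unfold P0 at hw ⊢
    rw [mem_box3] at hw ⊢
    rw [mir_apply]
    simp
    omega
  have z0 : ∀ j : Fin 3, GG (P0 m) 0 j (m + m + 2 : ℤ) = 0 := by
    intro j
    apply GG_zero
    rintro z hz ⟨h3, h4⟩
    unfold P0 at hz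
    rw [mem_box3] at hz
    unfold sg at h3
    fin_cases j <;> simp at h4 <;> omega
  have y0 := z0 0
  have y1 := z0 1
  have y2 := z0 2
  unfold P0 at *
  rw [y0, y1, y2, ← hsym] at h1
  rw [y0, y1, ← hsym] at h2
  have hc := c1_pos
  have h3 : AL (box ![-(m : ℤ), -(m : ℤ), 1] ![m + m + 2, m + m + 2, m + m + 2]) =
      AR (box ![-(m : ℤ), -(m : ℤ), 1] ![m + m + 2, m + m + 2, m + m + 2]) := by
    have : c1 * (AL (box ![-(m : ℤ), -(m : ℤ), 1] ![m + m + 2, m + m + 2, m + m + 2]) -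
      AR (box ![-(m : ℤ), -(m : ℤ), 1] ![m + m + 2, m + m + 2, m + m + 2])) = 0 := by
      rw [h2]; ring
    rcases mul_eq_zero.1 this with h | h
    · exact absurd h hc.ne'
    · linarith
  refine ⟨h3, ?_⟩
  rw [← h3] at h1
  linarith

/-- The identities in `P1`. -/
lemma id1 : c3 * (AL (P1 m) + AR (P1 m)) + c1 * GG (P1 m) 1 0 (-(m : ℤ)) +
      c2 * GG (P1 m) 0 0 m + GG (P1 m) 0 2 (2 * m + 1) = 1 ∧
    c1 * (AL (P1 m) - AR (P1 m)) = c3 * GG (P1 m) 1 0 (-(m : ℤ)) - c2 * GG (P1 m) 0 0 m := by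
  have hmem : e 2 ∈ P1 m := by
    unfold P1; rw [mem_box3]; simp [e]; omega
  have h1 := re_id3 hmem
  have h2 := im_id3 hmem
  have z1 : GG (P1 m) 1 1 (-(3 * m + 1 : ℤ)) = 0 := by
    apply GG_zero
    rintro z hz ⟨h3, h4⟩
    unfold P1 at hz
    rw [mem_box3] at hz
    unfold sg at h3
    omega
  have z2 : GG (P1 m) 0 1 (3 * m + 2 : ℤ) = 0 := by
    apply GG_zero
    rintro z hz ⟨h3, h4⟩
    unfold P1 at hz
    rw [mem_box3] at hz
    unfold sg at h3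
    omega
  unfold P1 at *
  rw [z1, z2] at h1 h2
  constructor <;> linarith

/-- The identities in `P2`. -/
lemma id2 : AL (P2 m) = AR (P2 m) ∧
    2 * c3 * AL (P2 m) + 2 * c2 * GG (P2 m) 0 0 m + GG (P2 m) 0 2 (2 * m + 1) = 1 := by
  have hmem : e 2 ∈ P2 m := by
    unfold P2; rw [mem_box3]; simp [e]; omega
  have h1 := re_id3 hmem
  have h2 := im_id3 hmem
  have z1 : ∀ j : Fin 3, j ≠ 2 → GG (P2 m) 1 j (-(3 * m + 1 : ℤ)) = 0 := by
    intro j hj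
    apply GG_zero
    rintro z hz ⟨h3, h4⟩
    unfold P2 at hz
    rw [mem_box3] at hz
    unfold sg at h3
    fin_cases j <;> simp at h4 hj <;> omega
  have hsym : GG (P2 m) 0 0 (m : ℤ) = GG (P2 m) 0 1 (m : ℤ) := by
    apply GG_mir
    intro w hw
    unfold P2 at hw ⊢
    rw [mem_box3] at hw ⊢
    rw [mir_apply]
    simp
    omega
  have y0 := z1 0 (by decide)
  have y1 := z1 1 (by decide)
  unfold P2 at *
  rw [y0, y1, ← hsym] at h1 h2
  have hc := c1_pos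
  have h3 : AL (box ![-(3 * m + 1 : ℤ), -(3 * m + 1 : ℤ), 1] ![(m : ℤ), m, 2 * m + 1]) =
      AR (box ![-(3 * m + 1 : ℤ), -(3 * m + 1 : ℤ), 1] ![(m : ℤ), m, 2 * m + 1]) := by
    have : c1 * (AL (box ![-(3 * m + 1 : ℤ), -(3 * m + 1 : ℤ), 1] ![(m : ℤ), m, 2 * m + 1]) -
      AR (box ![-(3 * m + 1 : ℤ), -(3 * m + 1 : ℤ), 1] ![(m : ℤ), m, 2 * m + 1])) = 0 := by
      rw [h2]; ring
    rcases mul_eq_zero.1 this with h | h
    · exact absurd h hc.ne'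
    · linarith
  refine ⟨h3, ?_⟩
  rw [← h3] at h1
  linarith

/-- The identities in `P3`. -/
lemma id3 : c3 * (AL (P3 m) + AR (P3 m)) + c1 * GG (P3 m) 1 0 (-(3 * m + 1 : ℤ)) +
      c2 * GG (P3 m) 0 0 m + GG (P3 m) 0 2 (2 * m + 1) = 1 ∧
    c1 * (AL (P3 m) - AR (P3 m)) =
      c3 * GG (P3 m) 1 0 (-(3 * m + 1 : ℤ)) - c2 * GG (P3 m) 0 0 m := by
  have hmem : e 2 ∈ P3 m := by
    unfold P3; rw [mem_box3]; simp [e]; omega
  have h1 := re_id3 hmem
  have h2 := im_id3 hmem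
  have z1 : GG (P3 m) 1 1 (-(3 * m + 1 : ℤ)) = 0 := by
    apply GG_zero
    rintro z hz ⟨h3, h4⟩
    unfold P3 at hz
    rw [mem_box3] at hz
    unfold sg at h3
    omega
  have z2 : GG (P3 m) 0 1 (3 * m + 2 : ℤ) = 0 := by
    apply GG_zero
    rintro z hz ⟨h3, h4⟩
    unfold P3 at hz
    rw [mem_box3] at hz
    unfold sg at h3
    omega
  unfold P3 at *
  rw [z1, z2] at h1 h2
  constructor <;> linarith

lemma Y_P0 : Y m = 1 - 2 * c3 * AL (P0 m) := by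
  have h := (id0 m).1
  have h2 : A m m = AL (P0 m) + AR (P0 m) := by
    rw [AL_add_AR]
    unfold A AD P0
    rw [canon_box]
    apply G_congr
    intro z _
    rw [sg_e]
    simp [e]
  unfold Y
  rw [h2, ← h]; ring

lemma c2_eq : c2 = 2 * c3 * c1 := by
  have h := Real.sin_two_mul (Real.pi / 8)
  rw [sin_pi_div_eight, show 2 * (Real.pi / 8) = Real.pi / 4 by ring, sin_quarter] at h
  exact h

lemma c13 : c1 ^ 2 + c3 ^ 2 = 1 := by
  have h := Real.sin_sq_add_cos_sq (Real.pi / 8)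
  rw [sin_pi_div_eight] at h
  unfold c1
  linarith

lemma c2_eq' : c2 = c1 ^ 2 - c3 ^ 2 := by
  have h := Real.cos_two_mul (Real.pi / 8)
  rw [show 2 * (Real.pi / 8) = Real.pi / 4 by ring] at h
  have h2 := c13
  unfold c2
  rw [h]
  change 2 * c1 ^ 2 - 1 = _
  linarith

lemma c2_sq : 2 * c2 ^ 2 = 1 := by
  have h1 := c2_eq
  have h2 := c2_eq'
  have h3 := c13
  have : c2 ^ 2 + c2 ^ 2 = (c1 ^ 2 + c3 ^ 2) ^ 2 := by
    nth_rewrite 1 [h1]
    rw [h2]; ring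
  rw [h3] at this
  linarith

end

end Pool.Agent.Helper78.Saw
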