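import Pool.Agent.Helper78.Saw.Poly

/-!
# Decay of the bridge weights: `Y (3 m + 1) ≤ (3 - 3 / √2) Y m`
-/

namespace Pool.Agent.Helper78.Saw

open Finset Pool.Agent.Helper98.Saw

lemma c2_half : 1 / 2 ≤ c2 := by
  have h1 := c2_sq
  have h2 := c2_pos
  nlinarith

lemma tan_eq : c3 = (2 * c2 - 1) * c1 := by
  have h1 := c2_eq
  have h2 := c2_eq'
  have h3 := c13
  have h4 := c2_sq
  have hc := c1_pos
  -- 1 + c2 = 2 c1²
  have h5 : 1 + c2 = 2 * c1 ^ 2 := by linarith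
  -- c2 = (2 c2 - 1) (1 + c2)
  have h6 : c2 = (2 * c2 - 1) * (1 + c2) := by nlinarith
  have h7 : (2 * c3 * c1) = (2 * c2 - 1) * (2 * c1 ^ 2) := by rw [← h5, ← h6, ← h1]
  have h8 : c1 * (c3 - (2 * c2 - 1) * c1) = 0 := by nlinarith
  rcases mul_eq_zero.1 h8 with h | h
  · exact absurd h hc.ne'
  · linarith

lemma side_ids {L R g e' b : ℝ} (h1 : c3 * (L + R) + c1 * g + c2 * e' + b = 1)
    (h2 : c1 * (L - R) = c3 * g - c2 * e') :
    1 - 2 * c3 * R = 1 / c1 * g + (2 * c2 - 1) * e' + b ∧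
      1 - 2 * c3 * L = c2 * (1 / c1) * g + e' + b := by
  have ht := tan_eq
  have hc := c1_pos
  have h3 := c13
  have h4 := c2_sq
  have h5 := c2_eq'
  have hu : 1 / c1 * c1 = 1 := by field_simp
  set u := 1 / c1 with hu'
  -- c3 (L - R) = (2 c2 - 1) (c3 g - c2 e')
  have h6 : c3 * (L - R) = (2 * c2 - 1) * (c3 * g - c2 * e') := by
    calc c3 * (L - R) = (2 * c2 - 1) * (c1 * (L - R)) := by rw [ht]; ring
      _ = _ := by rw [h2]
  have h7 : c1 + (2 * c2 - 1) * c3 = u := by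
    have : (c1 + (2 * c2 - 1) * c3) * c1 = 1 := by
      have : (2 * c2 - 1) * c3 * c1 = c3 * c3 := by nth_rewrite 2 [ht]; ring
      nlinarith
    calc c1 + (2 * c2 - 1) * c3 = (c1 + (2 * c2 - 1) * c3) * (u * c1) := by rw [hu, mul_one]
      _ = ((c1 + (2 * c2 - 1) * c3) * c1) * u := by ring
      _ = u := by rw [this, one_mul]
  have h8 : c1 - (2 * c2 - 1) * c3 = c2 * u := by
    have : (c1 - (2 * c2 - 1) * c3) * c1 = c2 := by
      have : (2 * c2 - 1) * c3 * c1 = c3 * c3 := by nth_rewrite 2 [ht]; ring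
      nlinarith
    calc c1 - (2 * c2 - 1) * c3 = (c1 - (2 * c2 - 1) * c3) * (u * c1) := by rw [hu, mul_one]
      _ = ((c1 - (2 * c2 - 1) * c3) * c1) * u := by ring
      _ = _ := by rw [this]
  have h9 : c2 - (2 * c2 - 1) * c2 = 2 * c2 - 1 := by nlinarith
  have h10 : c2 + (2 * c2 - 1) * c2 = 1 := by nlinarith
  constructor
  · calc 1 - 2 * c3 * R = (c3 * (L + R) + c1 * g + c2 * e' + b) - 2 * c3 * R := by rw [h1]
      _ = c3 * (L - R) + c1 * g + c2 * e' + b := by ring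
      _ = (c1 + (2 * c2 - 1) * c3) * g + (c2 - (2 * c2 - 1) * c2) * e' + b := by rw [h6]; ring
      _ = _ := by rw [h7, h9]
  · calc 1 - 2 * c3 * L = (c3 * (L + R) + c1 * g + c2 * e' + b) - 2 * c3 * L := by rw [h1]
      _ = -(c3 * (L - R)) + c1 * g + c2 * e' + b := by ring
      _ = (c1 - (2 * c2 - 1) * c3) * g + (c2 + (2 * c2 - 1) * c2) * e' + b := by rw [h6]; ring
      _ = _ := by rw [h8, h10, one_mul]

/-- **The key step.** -/
theorem Y_step (m : ℕ) : Y (3 * m + 1) ≤ 3 * (1 - c2) * Y m := by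
  obtain ⟨a1, a2⟩ := id0 m
  obtain ⟨b1, b2⟩ := id1 m
  obtain ⟨d1, d2⟩ := id2 m
  obtain ⟨f1, f2⟩ := id3 m
  obtain ⟨g1, _⟩ := id0 (3 * m + 1)
  rw [Y_P0, Y_P0]
  obtain ⟨r1, l1⟩ := side_ids b1 b2
  obtain ⟨r3, l3⟩ := side_ids f1 f2
  have i1 := AR_mono (P0_P1 m)
  have i2 := AL_mono (P1_P2 m)
  have i3 := AR_mono (P1_P2 m)
  have i4 := AL_mono (P2_P3 m)
  have i5 := AR_mono (P3_P4 m)
  have j1 := GG_mono (P0_P1 m) 1 0 (-(m : ℤ))
  have j2 := GG_mono (P1_P2 m) 0 0 (m : ℤ)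
  have j3 := GG_mono (P2_P3 m) 0 0 (m : ℤ)
  have j4 := GG_mono (P2_P3 m) 0 2 (2 * m + 1)
  have hs := c3_pos
  have hc := c1_pos
  have hk := c2_half
  have hk2 := c2_sq
  have hk1 := c2_le_one
  have hkk := c2_eq'
  have h13 := c13
  rw [← a1] at i1
  rw [← d1] at i3
  rw [← g1] at i5
  set L0 := AL (P0 m)
  set g0 := GG (P0 m) 1 0 (-(m : ℤ))
  set L1 := AL (P1 m)
  set R1 := AR (P1 m)
  set x1 := GG (P1 m) 1 0 (-(m : ℤ))
  set y1 := GG (P1 m) 0 0 (m : ℤ)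
  set z1 := GG (P1 m) 0 2 (2 * m + 1)
  set L2 := AL (P2 m)
  set y2 := GG (P2 m) 0 0 (m : ℤ)
  set z2 := GG (P2 m) 0 2 (2 * m + 1)
  set L3 := AL (P3 m)
  set R3 := AR (P3 m)
  set x3 := GG (P3 m) 1 0 (-(3 * m + 1 : ℤ))
  set y3 := GG (P3 m) 0 0 (m : ℤ)
  set z3 := GG (P3 m) 0 2 (2 * m + 1)
  set L4 := AL (P0 (3 * m + 1))
  have hu0 : 0 < 1 / c1 := by positivity
  have huc : 1 / c1 * c1 = 1 := by field_simp
  set u := 1 / c1 with hu
  set k := c2 with hk0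
  have hk00 : 0 < k := by linarith
  -- products with c3
  have p1 : 2 * c3 * L0 ≤ 2 * c3 * R1 := by nlinarith
  have p2 : 2 * c3 * L1 ≤ 2 * c3 * L2 := by nlinarith
  have p3 : 2 * c3 * R1 ≤ 2 * c3 * L2 := by nlinarith
  have p4 : 2 * c3 * L2 ≤ 2 * c3 * L3 := by nlinarith
  have p5 : 2 * c3 * R3 ≤ 2 * c3 * L4 := by nlinarith
  -- claim A
  have q1 : k * u * x3 + y3 + z3 ≤ 2 * k * y2 + z2 := by linarith
  have q2 : u * x3 + 2 * k * y3 + 2 * k * z3 ≤ 2 * y2 + 2 * k * z2 := by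
    have h := mul_le_mul_of_nonneg_left q1 (show 0 ≤ 2 * k by linarith)
    have e1 : 2 * k * (k * u * x3 + y3 + z3) = (2 * k ^ 2) * (u * x3) + 2 * k * y3 + 2 * k * z3 := by
      ring
    have e2 : 2 * k * (2 * k * y2 + z2) = (2 * k ^ 2) * (2 * y2) + 2 * k * z2 := by ring
    rw [e1, e2, hk2, one_mul, one_mul] at h
    exact h
  have q3 : 1 - 2 * c3 * L4 ≤ y2 + z2 := by
    have e1 : 1 - 2 * c3 * L4 ≤ u * x3 + (2 * k - 1) * y3 + z3 := by linarith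
    have e2 : (2 * k - 1) * z2 ≤ (2 * k - 1) * z3 :=
      mul_le_mul_of_nonneg_left j4 (by linarith)
    nlinarith
  -- claim B
  have w1 : 2 * k * y2 + z2 ≤ k * u * x1 + y1 + z1 := by linarith
  have w2 : 2 * k * y2 + z2 ≤ u * x1 + (2 * k - 1) * y1 + z1 := by linarith
  have w3 : u * x1 + (2 * k - 1) * y1 + z1 ≤ 2 * c1 * g0 := by linarith
  have w4 : u * g0 ≤ u * x1 := mul_le_mul_of_nonneg_left j1 hu0.le
  have w5 : (2 * k - 1) * y1 ≤ (2 * k - 1) * y2 := mul_le_mul_of_nonneg_left j2 (by linarith)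
  have w6 : k * (2 * k * y2 + z2) ≤ k * (k * u * x1 + y1 + z1) :=
    mul_le_mul_of_nonneg_left w1 hk00.le
  have w7 : (1 - k) * (2 * k * y2 + z2) ≤ (1 - k) * (u * x1 + (2 * k - 1) * y1 + z1) :=
    mul_le_mul_of_nonneg_left w2 (by linarith)
  have w8 : y2 + z2 ≤ (u * x1 + (2 * k - 1) * y1 + z1) - k * (1 - k) * (u * x1) := by
    have e1 : k * (k * u * x1 + y1 + z1) + (1 - k) * (u * x1 + (2 * k - 1) * y1 + z1) -
        (2 * k - 1) * y1 = (1 - k * (1 - k)) * (u * x1) + (2 * k - 2 * k ^ 2) * y1 + z1 := by ring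
    rw [hk2] at e1
    nlinarith
  have w9 : k * (1 - k) * (u * g0) ≤ k * (1 - k) * (u * x1) :=
    mul_le_mul_of_nonneg_left w4 (mul_nonneg hk00.le (by linarith))
  have w10 : k * (1 - k) * (u * g0) = (3 * k - 2) * (2 * c1 * g0) := by
    -- k (1-k) = (3k-2)(1+k), 1 + k = 2 c1²
    have e1 : k * (1 - k) = (3 * k - 2) * (2 * c1 ^ 2) := by
      have : 2 * c1 ^ 2 = 1 + k := by linarith
      rw [this]; nlinarith
    calc k * (1 - k) * (u * g0) = (3 * k - 2) * (2 * c1 ^ 2) * (u * g0) := by rw [e1]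
      _ = (3 * k - 2) * (2 * c1 * g0) * (u * c1) := by ring
      _ = _ := by rw [huc, mul_one]
  have hY0 : 1 - 2 * c3 * L0 = 2 * c1 * g0 := by linarith
  rw [hY0]
  calc 1 - 2 * c3 * L4 ≤ y2 + z2 := q3
    _ ≤ (u * x1 + (2 * k - 1) * y1 + z1) - k * (1 - k) * (u * x1) := w8
    _ ≤ 2 * c1 * g0 - k * (1 - k) * (u * g0) := by linarith
    _ = 3 * (1 - k) * (2 * c1 * g0) := by rw [w10]; ring

end Pool.Agent.Helper78.Saw
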